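import Pool.Graph.R_pool_sql_team_seeded_3997aac3.Q63.RF.Fin
import Pool.Graph.R_pool_sql_team_seeded_3997aac3.Q63.RF.SysF
import Pool.Graph.R_pool_sql_team_seeded_3997aac3.Q63.RF.Stat
import Pool.Graph.R_pool_sql_team_seeded_3997aac3.Q151.RF.Meas
import Pool.Graph.R_pool_sql_team_seeded_3997aac3.Q151.RF.Pois
import Pool.Graph.R_pool_sql_team_seeded_3997aac3.Q208.RF.Fell
import Pool.Graph.R_pool_sql_team_seeded_3997aac3.Q208.RF.Lyap
import Pool.Graph.R_pool_sql_team_seeded_3997aac3.Q38.RF.Blk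
import Pool.Graph.R_pool_sql_team_seeded_3997aac3.Q38.RF.Low
import Pool.Graph.R_pool_sql_team_seeded_3997aac3.Q38.RF.Up

/-!
# Larger rates can make the speed smaller by an arbitrarily large factor

Q1 of MP_34a06d_pr asks whether `σ(r₁) ≤ σ(r₂)` for invariant random rate fields `r₁ ≤ r₂` on Coxeter groups.
The library has a pair with `σ(r₂) < σ(r₁)`. Here: no inequality `σ(r₁) ≤ C σ(r₂)` holds, whatever the constant.

The fields are those of the library: the Coxeter group is `((ℤ/2)^n * (ℤ/2)^n) × (ℤ/2 * ⋯ * ℤ/2)` (`d` factors);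
in `r₁` most of the clusters of layers are pairs of layers of different types, in `r₂` they are stars whose leaves
have one type. With the rate `ρ = 1` inside the layers, `n - 2 = 32 (C + 1)`, `d = 4 n ^ 2` and the density
`ε = 1 / (4 d)` of the open edges of the tree, the Lyapunov estimates of the library (lower bound for `r₁`, upper
bound for `r₂`) differ by a factor larger than `C`: roughly `n / 12` against `3`.
-/

set_option autoImplicit false

namespace Pool.Agent.Results.MP_34a06d_pr.SpeedRatioUnbounded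

open MeasureTheory ProbabilityTheory Filter Topology
open scoped ENNReal NNReal

variable {B W : Type} [Fintype B] [Group W] {M : CoxeterMatrix B}

/-- A rate field on the edges of the Cayley graph of a Coxeter system with the generators `s_i`,
`i` in the finite set `B`: `a x i` is the rate of the edge `{x, x s_i}`, so
`a (x s_i) i = a x i`. -/
def IsRate (cs : CoxeterSystem M W) (a : W → B → ℝ≥0) : Prop :=
  ∀ x i, a (x * cs.simple i) i = a x i

/-- The total rate of the edges at `x`. -/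
def tot (a : W → B → ℝ≥0) (x : W) : ℝ≥0 := ∑ i, a x i

/-- The expectation of `f (Z_t)` over the event that the walk started at `x` in the rate field `a`
makes exactly `n` jumps up to time `t`. The walk waits at `x` an exponential time with rate
`tot a x` and then crosses one of the edges at `x`, the edge `{x, x s_i}` with the probability
`a x i / tot a x`, so this is `exp (- tot a x * t) f x` for `n = 0`, and for `n + 1` (time `s` of
the first jump) the integral over `0 ≤ s ≤ t` of `exp (- tot a x * s)` times the sum over `i` of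
`a x i` times the same quantity for `n` jumps, the time `t - s` and the starting point `x s_i`. -/
noncomputable def jumpE (cs : CoxeterSystem M W) (a : W → B → ℝ≥0) (f : W → ℝ≥0∞) :
    ℕ → ℝ → W → ℝ≥0∞
  | 0, t, x => ENNReal.ofReal (Real.exp (-((tot a x : ℝ) * t))) * f x
  | n + 1, t, x => ∫⁻ s in Set.Icc (0 : ℝ) t,
      ENNReal.ofReal (Real.exp (-((tot a x : ℝ) * s))) *
        ∑ i, (a x i : ℝ≥0∞) * jumpE cs a f n (t - s) (x * cs.simple i)

/-- The expectation of `f (Z_t)` over the event of finitely many jumps up to time `t`, for the walk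
started at `x` in the rate field `a`. -/
noncomputable def walkE (cs : CoxeterSystem M W) (a : W → B → ℝ≥0) (f : W → ℝ≥0∞) (t : ℝ) (x : W) :
    ℝ≥0∞ := ∑' n, jumpE cs a f n t x

/-- The walk started at the identity makes, with probability one, finitely many jumps in every
bounded time interval. -/
def NonExplosive (cs : CoxeterSystem M W) (a : W → B → ℝ≥0) : Prop :=
  ∀ t : ℝ, 0 ≤ t → walkE cs a (fun _ => 1) t 1 = 1

variable {Ω : Type} [MeasurableSpace Ω]

/-- The annealed expectation of `|Z_t|`, the expectation over the field and the walk. -/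
noncomputable def meanLen (cs : CoxeterSystem M W) (P : Measure Ω) (r : Ω → W → B → ℝ≥0) (t : ℝ) :
    ℝ≥0∞ := ∫⁻ ω, walkE cs (r ω) (fun x => (cs.length x : ℝ≥0∞)) t 1 ∂P

/-- The random rate field `r` has the speed `σ`: the walk is almost surely non-explosive, and
`E |Z_t| / t` tends to `σ`. -/
def HasSpeed (cs : CoxeterSystem M W) (P : Measure Ω) (r : Ω → W → B → ℝ≥0) (σ : ℝ≥0∞) : Prop :=
  (∀ᵐ ω ∂P, NonExplosive cs (r ω)) ∧
    Tendsto (fun t : ℝ => meanLen cs P r t / ENNReal.ofReal t) atTop (𝓝 σ)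

/-- A random rate field whose law is invariant under left multiplication: for every `g` the field
`x ↦ r (g x)` has the same law as `r`. -/
def IsField (cs : CoxeterSystem M W) (P : Measure Ω) (r : Ω → W → B → ℝ≥0) : Prop :=
  (∀ ω, IsRate cs (r ω)) ∧ Measurable r ∧
    ∀ g : W, P.map (fun ω x i => r ω (g * x) i) = P.map r

theorem jumpE_eq (cs : CoxeterSystem M W) (a : W → B → ℝ≥0) (f : W → ℝ≥0∞) (n : ℕ) :
    ∀ (t : ℝ) (x : W), jumpE cs a f n t x = Pool.Agent.Q63.RF.jumpE cs a f n t x := by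
  induction n with
  | zero => intro t x; rfl
  | succ n ih =>
    intro t x
    rw [jumpE, Pool.Agent.Q63.RF.jumpE]
    simp only [ih]
    rfl

theorem walkE_eq (cs : CoxeterSystem M W) (a : W → B → ℝ≥0) (f : W → ℝ≥0∞) (t : ℝ) (x : W) :
    walkE cs a f t x = Pool.Agent.Q63.RF.walkE cs a f t x := by
  unfold walkE Pool.Agent.Q63.RF.walkE
  simp only [jumpE_eq]

theorem hasSpeed_iff (cs : CoxeterSystem M W) (P : Measure Ω) (r : Ω → W → B → ℝ≥0) (σ : ℝ≥0∞) :
    HasSpeed cs P r σ ↔ Pool.Agent.Q63.RF.HasSpeed cs P r σ := by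
  unfold HasSpeed Pool.Agent.Q63.RF.HasSpeed meanLen Pool.Agent.Q63.RF.meanLen NonExplosive
    Pool.Agent.Q63.RF.NonExplosive
  simp only [walkE_eq]

open Pool.Agent.Q63.RF in
theorem ratio_aux (hSP : S_SPEED) (hSU : S_SUB) (hT : S_TREE) (hM : S_MEAS) (hSY : S_SYS)
    (hL : S_LOW) (hU : S_UP) (C n d : ℕ) (hn : n = 32 * (C + 1) + 2) (hd : d = 4 * n ^ 2) :
    ∃ (B W Ω : Type) (_ : Fintype B) (_ : Group W) (_ : MeasurableSpace Ω)
    (M : CoxeterMatrix B) (cs : CoxeterSystem M W) (P : Measure Ω) (_ : IsProbabilityMeasure P)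
    (r₁ r₂ : Ω → W → B → ℝ≥0) (σ₁ σ₂ : ℝ≥0∞),
    Pool.Agent.Q63.RF.IsField cs P r₁ ∧ Pool.Agent.Q63.RF.IsField cs P r₂ ∧
      (∀ ω x i, r₁ ω x i ≤ r₂ ω x i) ∧ (∀ ω x i, r₂ ω x i ≤ 1) ∧
      Pool.Agent.Q63.RF.HasSpeed cs P r₁ σ₁ ∧ Pool.Agent.Q63.RF.HasSpeed cs P r₂ σ₂ ∧
      C * σ₂ < σ₁ ∧ σ₁ ≠ ∞ := by
  obtain ⟨c, e, hce, hinj, hne⟩ := hT d
  have hnr : (n : ℝ) = 32 * (C + 1) + 2 := by rw [hn]; push_cast; ring
  have hdr : (d : ℝ) = 4 * (n : ℝ) ^ 2 := by rw [hd]; push_cast; ring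
  have hn2 : (34 : ℝ) ≤ n := by
    rw [hnr]
    have : (0 : ℝ) ≤ C := Nat.cast_nonneg _
    linarith
  have hdpos : (0 : ℝ) < d := by rw [hdr]; positivity
  have hd1 : (1 : ℝ) ≤ d := by
    rw [hdr]; nlinarith
  obtain ⟨ε, hεr⟩ : ∃ ε : ℝ≥0, (ε : ℝ) = 1 / (4 * d) := ⟨⟨1 / (4 * d), by positivity⟩, rfl⟩
  have hεpos : (0 : ℝ) < ε := by rw [hεr]; positivity
  have hεle : (ε : ℝ) ≤ 1 / 4 := by
    rw [hεr, div_le_div_iff₀ (by positivity) (by norm_num)]
    linarith
  have hε1 : ε ≤ 1 := by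
    rw [← NNReal.coe_le_coe]
    push_cast
    linarith
  have hρ : (0 : ℝ≥0) < 1 := one_pos
  obtain ⟨hprob, -, -⟩ := hM d ε hε1
  obtain ⟨hs1, hs2⟩ := hSY n d 1 ε (by omega) hρ hε1
  have hs1 := hs1 c e hce
  obtain ⟨hf1, s1, ht1, hsp1⟩ := hSP _ _ _ _ (csW n d) (PP d ε) _ _ _ hs1
  obtain ⟨hf2, s2, ht2, hsp2⟩ := hSP _ _ _ _ (csW n d) (PP d ε) _ _ _ hs2
  have hlow := hL n d 1 ε (by omega) hρ hε1 c e hce hinj hne
  have hup := hU n d 1 ε (by omega) hρ hε1
  have hC0 : (0 : ℝ) ≤ C := Nat.cast_nonneg _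
  set D : ℝ := d * ε / (n + d) with hD
  have hD0 : 0 < D := by rw [hD]; positivity
  -- lower bound
  have hl : ENNReal.ofReal (5 * (C + 1) * D) ≤ s1 := by
    refine low_aux (by positivity) (fun N => le_trans ?_ (hlow N)) ht1
    apply ENNReal.ofReal_le_ofReal
    apply mul_le_mul_of_nonneg_right _ (Nat.cast_nonneg N)
    have hb := one_add_mul_le_pow (a := (-(ε : ℝ))) (by linarith) (2 * (d - 1))
    rw [← sub_eq_add_neg] at hb
    have hk : ((2 * (d - 1) : ℕ) : ℝ) ≤ 2 * d := by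
      have : 2 * (d - 1) ≤ 2 * d := by omega
      exact_mod_cast this
    have hb2 : (1 / 2 : ℝ) ≤ (1 - (ε : ℝ)) ^ (2 * (d - 1)) := by
      refine le_trans ?_ hb
      have h2 : ((2 * (d - 1) : ℕ) : ℝ) * ε ≤ 2 * d * ε := mul_le_mul_of_nonneg_right hk hεpos.le
      have h3 : 2 * (d : ℝ) * ε = 1 / 2 := by
        rw [hεr]; field_simp; norm_num
      linarith
    generalize (1 - (ε : ℝ)) ^ (2 * (d - 1)) = p at hb2
    rw [hD, div_eq_mul_inv, div_eq_mul_inv]
    simp only [NNReal.coe_one, one_mul, mul_one]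
    have hinv : (0 : ℝ) < ((n : ℝ) + d)⁻¹ := by positivity
    rw [← mul_assoc]
    apply mul_le_mul_of_nonneg_right _ hinv.le
    have h5 : (10 * (C + 1) : ℝ) ≤ (1 + 2 : ℝ)⁻¹ * ((n : ℝ) - 2 - 2) := by
      rw [hnr]
      norm_num
      linarith
    have h6 : (0 : ℝ) < d * ε := by positivity
    calc 5 * ((C : ℝ) + 1) * (d * ε) = d * ε * (1 / 2) * (10 * (C + 1)) := by ring
      _ ≤ d * ε * p * ((1 + 2 : ℝ)⁻¹ * ((n : ℝ) - 2 - 2)) := by
        apply mul_le_mul (mul_le_mul_of_nonneg_left hb2 h6.le) h5 (by positivity)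
        exact mul_nonneg h6.le (by linarith)
  have hu : s2 ≤ ENNReal.ofReal (4 * D) := by
    refine up_aux (by positivity) ?_ hup ht2
    rw [hD, ← mul_div_assoc]
    simp only [NNReal.coe_one, mul_one]
    apply div_lt_div_of_pos_right _ (by positivity)
    have h7 : (n : ℝ) * ε * (2 * n) = d * ε / 2 := by rw [hdr]; ring
    have h8 : (n : ℝ) * ε ≤ 1 := by
      rw [hεr, hdr, mul_one_div, div_le_one (by positivity)]
      nlinarith
    have h9 : (n : ℝ) * ε * (d * ε) ≤ d * ε := by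
      have : (0 : ℝ) ≤ d * ε := by positivity
      nlinarith
    have h10 : (0 : ℝ) < d * ε := by positivity
    nlinarith
  have hlt : C * s2 < s1 := by
    refine lt_of_lt_of_le ?_ hl
    calc (C : ℝ≥0∞) * s2 ≤ C * ENNReal.ofReal (4 * D) := mul_le_mul_right hu _
      _ = ENNReal.ofReal (C * (4 * D)) := by
        rw [ENNReal.ofReal_mul hC0, ENNReal.ofReal_natCast]
      _ < ENNReal.ofReal (5 * (C + 1) * D) := by
        rw [ENNReal.ofReal_lt_ofReal_iff (by positivity)]
        nlinarith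
  have hs1top : s1 ≠ ∞ :=
    ne_top_of_le_ne_top ENNReal.one_ne_top
      (meanN_le_one_aux (hSU _ _ _ _ (csW n d) (PP d ε) _ _ _ hs1).1 ht1)
  have hΛ : (n : ℝ≥0) * 1 + d ≠ 0 := by
    have h1 : 0 < (n : ℝ≥0) * 1 := mul_pos (by exact_mod_cast (by omega : 0 < n)) hρ
    exact (add_pos_of_pos_of_nonneg h1 zero_le).ne'
  refine ⟨_, _, _, inferInstance, inferInstance, inferInstance, _, csW n d, PP d ε, hprob,
    fieldOne 1 c, fieldTwo 1, _, _, hf1, hf2, ?_, ?_, hsp1, hsp2, ?_, ?_⟩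
  · intro ω x i
    rcases i with p | k
    · exact le_refl _
    · simp only [fieldOne, fieldTwo]
      split_ifs with h1 h2
      · exact le_refl _
      · exfalso
        apply h2
        rcases hce.mem (prF x) k with h3 | h3
        · left; rw [← h3]; exact h1
        · right; rw [← h3]; exact h1
      · exact zero_le
      · exact le_refl _
  · intro ω x i
    rcases i with p | k
    · simp only [fieldTwo, rateA]
      split_ifs
      · exact le_refl _
      · exact zero_le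
    · simp only [fieldTwo]
      split_ifs
      · exact le_refl _
      · exact zero_le
  · rw [mul_left_comm]
    exact ENNReal.mul_lt_mul_right (by exact_mod_cast hΛ) ENNReal.coe_ne_top hlt
  · exact ENNReal.mul_ne_top ENNReal.coe_ne_top hs1top

/-- For every constant `C` there are a Coxeter system and two random rate fields `r₁ ≤ r₂` with rates in `[0, 1]`
on its Cayley graph, on a common probability space, such that the law of each field is invariant under left
multiplication and the speeds `σ₁`, `σ₂` of both fields are defined, with `C σ₂ < σ₁ < ∞`. -/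
theorem result : ∀ C : ℕ, ∃ (B W Ω : Type) (_ : Fintype B) (_ : Group W) (_ : MeasurableSpace Ω)
    (M : CoxeterMatrix B) (cs : CoxeterSystem M W) (P : Measure Ω) (_ : IsProbabilityMeasure P)
    (r₁ r₂ : Ω → W → B → ℝ≥0) (σ₁ σ₂ : ℝ≥0∞),
    IsField cs P r₁ ∧ IsField cs P r₂ ∧ (∀ ω x i, r₁ ω x i ≤ r₂ ω x i) ∧ (∀ ω x i, r₂ ω x i ≤ 1) ∧
      HasSpeed cs P r₁ σ₁ ∧ HasSpeed cs P r₂ σ₂ ∧ C * σ₂ < σ₁ ∧ σ₁ ≠ ∞ := by
  intro C
  have hsub := Pool.Agent.Q63.RF.sub Pool.Agent.Q63.RF.stat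
  have hsys := Pool.Agent.Q63.RF.sys Pool.Agent.Q151.RF.meas
  obtain ⟨B, W, Ω, iB, iW, iΩ, M, cs, P, iP, r₁, r₂, σ₁, σ₂, h1, h2, h3, h3', h4, h5, h6, h7⟩ :=
    ratio_aux (Pool.Agent.Q63.RF.speed Pool.Agent.Q208.RF.Fell.fell Pool.Agent.Q151.RF.pois hsub) hsub
      Pool.Agent.Q63.RF.tree Pool.Agent.Q151.RF.meas hsys
      (Pool.Agent.Q38.RF.low Pool.Agent.Q208.RF.Lyap.lyap Pool.Agent.Q151.RF.meas)
      (Pool.Agent.Q38.RF.up Pool.Agent.Q38.RF.blk Pool.Agent.Q63.RF.stat Pool.Agent.Q151.RF.meas hsys)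
      C _ _ rfl rfl
  exact ⟨B, W, Ω, iB, iW, iΩ, M, cs, P, iP, r₁, r₂, σ₁, σ₂, h1, h2, h3, h3',
    (hasSpeed_iff cs P r₁ σ₁).mpr h4, (hasSpeed_iff cs P r₂ σ₂).mpr h5, h6, h7⟩

end Pool.Agent.Results.MP_34a06d_pr.SpeedRatioUnbounded
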